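import Pool.Agent.H15.UB.Targets

/-!
# Board `ubs_modules`, module LA: local algebras from local Gorenstein algebras
-/

open Module

namespace Pool.Agent.H59.UB

open Pool.Agent.H12.Defect Pool.Agent.H15.Defect Pool.Agent.H15.UB

universe u

section

variable {k : Type u} [Field k] {A : Type u} [CommRing A] [Algebra k A]

/-- the largest ideal in the kernel of `f` -/
def IF (f : A →ₗ[k] k) : Ideal A where
  carrier := {a | ∀ b, f (a * b) = 0}
  add_mem' := fun {x y} hx hy b => by rw [add_mul, map_add, hx b, hy b, add_zero]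
  zero_mem' := fun b => by rw [zero_mul, map_zero]
  smul_mem' := fun c x hx b => by
    rw [smul_eq_mul, mul_comm c x, mul_assoc]
    exact hx (c * b)

theorem mem_IF {f : A →ₗ[k] k} {a : A} : a ∈ IF f ↔ ∀ b, f (a * b) = 0 := Iff.rfl

theorem dle_IF (h : T_LG.{u}) [IsAlgClosed k] [Module.Finite k A] [IsLocalRing A] (r : ℕ)
    (hr : 2 * finrank k A < (r + 1) * (r + 2)) (f : A →ₗ[k] k) :
    Dle k (A ⧸ IF f) (2 * finrank k A ^ r) := by
  by_cases htop : IF f = ⊤
  · have : Subsingleton (A ⧸ IF f) := Ideal.Quotient.subsingleton_iff.mpr htop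
    exact dle_subsingleton.mono (Nat.zero_le _)
  · have : Nontrivial (A ⧸ IF f) := Ideal.Quotient.nontrivial_iff.mpr htop
    have : IsLocalRing (A ⧸ IF f) :=
      IsLocalRing.of_surjective' (Ideal.Quotient.mk (IF f)) Ideal.Quotient.mk_surjective
    obtain ⟨s, hs⟩ := LinearMap.exists_rightInverse_of_surjective
      (Ideal.Quotient.mkₐ k (IF f)).toLinearMap
      (LinearMap.range_eq_top.mpr (Ideal.Quotient.mkₐ_surjective k (IF f)))
    have hs2 : ∀ a : A, f (s (Ideal.Quotient.mk (IF f) a)) = f a := by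
      intro a
      have h1 : Ideal.Quotient.mk (IF f) (s (Ideal.Quotient.mk (IF f) a)) =
          Ideal.Quotient.mk (IF f) a := LinearMap.congr_fun hs (Ideal.Quotient.mk (IF f) a)
      have h2 := Ideal.Quotient.eq.mp h1
      have h3 := mem_IF.mp h2 1
      rw [mul_one, map_sub, sub_eq_zero] at h3
      exact h3
    have hfin : finrank k (A ⧸ IF f) ≤ finrank k A :=
      LinearMap.finrank_le_finrank_of_surjective
        (f := (Ideal.Quotient.mkₐ k (IF f)).toLinearMap) (Ideal.Quotient.mkₐ_surjective k (IF f))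
    have h4 := h k (A ⧸ IF f) (f ∘ₗ s) r ?_ (by omega)
    · exact h4.mono (Nat.mul_le_mul_left _ (Nat.pow_le_pow_left hfin r))
    · intro x hx
      obtain ⟨a, rfl⟩ := Ideal.Quotient.mk_surjective x
      have ha : a ∉ IF f := fun h0 => hx (Ideal.Quotient.eq_zero_iff_mem.mpr h0)
      rw [mem_IF] at ha
      push Not at ha
      obtain ⟨b, hb⟩ := ha
      refine ⟨Ideal.Quotient.mk (IF f) b, ?_⟩
      rw [← map_mul, LinearMap.comp_apply, hs2]
      exact hb

theorem dle_inf {I J : Ideal A} {N1 N2 : ℕ} (h1 : Dle k (A ⧸ I) N1) (h2 : Dle k (A ⧸ J) N2) :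
    Dle k (A ⧸ (I ⊓ J)) (N1 + N2) := by
  let φ : A →ₐ[k] (A ⧸ I) × (A ⧸ J) :=
    (Ideal.Quotient.mkₐ k I).prod (Ideal.Quotient.mkₐ k J)
  have hφ : ∀ a : A, φ a = (Ideal.Quotient.mk I a, Ideal.Quotient.mk J a) := fun _ => rfl
  have hker : ∀ a : A, a ∈ I ⊓ J → φ a = 0 := by
    intro a ha
    rw [hφ, Ideal.Quotient.eq_zero_iff_mem.mpr ha.1, Ideal.Quotient.eq_zero_iff_mem.mpr ha.2]
    rfl
  refine (h1.prod h2).of_injective (Ideal.Quotient.liftₐ (I ⊓ J) φ hker) ?_
  rw [injective_iff_map_eq_zero]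
  intro x hx
  obtain ⟨a, rfl⟩ := Ideal.Quotient.mk_surjective x
  have h3 : φ a = 0 := hx
  rw [hφ] at h3
  have h4 : Ideal.Quotient.mk I a = 0 := congrArg Prod.fst h3
  have h5 : Ideal.Quotient.mk J a = 0 := congrArg Prod.snd h3
  exact Ideal.Quotient.eq_zero_iff_mem.mpr
    ⟨Ideal.Quotient.eq_zero_iff_mem.mp h4, Ideal.Quotient.eq_zero_iff_mem.mp h5⟩

theorem dle_finset {ι : Type} (F : ι → Ideal A) {M : ℕ} (hF : ∀ i, Dle k (A ⧸ F i) M)
    (s : Finset ι) : Dle k (A ⧸ s.inf F) (s.card * M) := by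
  classical
  induction s using Finset.induction_on with
  | empty =>
    rw [Finset.inf_empty]
    have : Subsingleton (A ⧸ (⊤ : Ideal A)) := Ideal.Quotient.subsingleton_iff.mpr rfl
    exact dle_subsingleton.mono (Nat.zero_le _)
  | insert a s ha ih =>
    rw [Finset.inf_insert, Finset.card_insert_of_notMem ha]
    have := dle_inf (hF a) ih
    exact this.mono (by rw [add_mul, one_mul, add_comm])

end

theorem pf_LA (h : T_LG.{u}) : T_LA.{u} := by
  intro k _ _ A _ _ _ _ r hr
  have h1 := dle_finset (k := k) (fun i : Fin (finrank k A) => IF ((finBasis k A).coord i))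
    (fun i => dle_IF h r hr _) Finset.univ
  have hbot : Finset.univ.inf (fun i : Fin (finrank k A) => IF ((finBasis k A).coord i)) = ⊥ := by
    rw [eq_bot_iff]
    intro a ha
    rw [Ideal.mem_bot]
    apply (finBasis k A).ext_elem
    intro i
    have h2 : a ∈ IF ((finBasis k A).coord i) :=
      (Finset.inf_le (f := fun i : Fin (finrank k A) => IF ((finBasis k A).coord i))
        (Finset.mem_univ i)) ha
    have h3 := mem_IF.mp h2 1
    rw [mul_one, Basis.coord_apply] at h3
    rw [h3, map_zero]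
    rfl
  rw [hbot, Finset.card_univ, Fintype.card_fin] at h1
  refine (h1.of_equiv (AlgEquiv.quotientBot k A)).mono (le_of_eq ?_)
  ring

end Pool.Agent.H59.UB
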